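import Pool.Agent.Helper16.CE.Defs

set_option autoImplicit false

namespace Pool.Agent.Helper93.CE
open MeasureTheory Pool.Agent.Helper16.CE
open scoped ENNReal

/-- the outer potential -/
noncomputable def Wf (om : ℕ → ℝ → ℝ) (N : ℕ) (Λ : ℝ) (h : Fin N → ℂ) (z : E3) : ℂ :=
  (1 / (Λ : ℂ) ^ 3) * (∑ n : Fin N, h n * (om n (‖z‖ / Λ) : ℂ)) * (zm z / (‖z‖ : ℂ)) ^ 2

/-- the parameter `ζ` of a point `b` of the disc -/
noncomputable def zt (b : ℂ) : ℂ := Complex.I * (1 + b) / (1 - b)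

lemma one_sub_ne {b : ℂ} (hb : ‖b‖ < 1) : (1 : ℂ) - b ≠ 0 := by
  intro h
  have h1 : b = 1 := (sub_eq_zero.1 h).symm
  rw [h1, norm_one] at hb
  exact lt_irrefl _ hb

lemma zt_im_pos {b : ℂ} (hb : ‖b‖ < 1) : 0 < (zt b).im := by
  have h1 := one_sub_ne hb
  have hpos : 0 < Complex.normSq (1 - b) := Complex.normSq_pos.2 h1
  have h2 : (zt b).im = (1 - Complex.normSq b) / Complex.normSq (1 - b) := by
    unfold zt
    rw [Complex.div_im]
    simp only [Complex.mul_re, Complex.mul_im, Complex.I_re, Complex.I_im, Complex.add_re,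
      Complex.add_im, Complex.one_re, Complex.one_im, Complex.sub_re, Complex.sub_im,
      Complex.normSq_apply]
    field_simp
    ring
  rw [h2]
  apply div_pos _ hpos
  have h3 : Complex.normSq b < 1 := by
    rw [Complex.normSq_eq_norm_sq]
    nlinarith [norm_nonneg b]
  linarith

lemma zt_b {b : ℂ} (hb : ‖b‖ < 1) : (zt b - Complex.I) / (zt b + Complex.I) = b := by
  have h1 := one_sub_ne hb
  have hI := Complex.I_ne_zero
  have h2 : zt b - Complex.I = 2 * Complex.I * b / (1 - b) := by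
    unfold zt; field_simp; ring
  have h3 : zt b + Complex.I = 2 * Complex.I / (1 - b) := by
    unfold zt; field_simp; ring
  rw [h2, h3]
  field_simp

lemma zt_half {b : ℂ} (hb : ‖b‖ < 1) : zt b / (zt b + Complex.I) = (1 + b) / 2 := by
  have h1 := one_sub_ne hb
  have hI := Complex.I_ne_zero
  have h3 : zt b + Complex.I = 2 * Complex.I / (1 - b) := by
    unfold zt; field_simp; ring
  rw [h3]
  unfold zt
  field_simp

lemma zm_mul_zp (z : E3) : zm z * zp z = (((z 0) ^ 2 + (z 1) ^ 2 : ℝ) : ℂ) := by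
  unfold zm zp
  push_cast
  have := Complex.I_sq
  linear_combination (-(z 1 : ℂ) ^ 2) * this

/-- integrability of the one dimensional integrands -/
lemma om_integrable (C0 : ℝ) (N : ℕ) (hN : 1 ≤ N) (f : ℝ → ℝ) (hf : Measurable f)
    (hf0 : ∀ t, t < 1 / (N : ℝ) → f t = 0)
    (hf1 : ∀ t, |f t| ≤ C0 * (N : ℝ) ^ 3 * Real.exp (- t / (4 * N))) (ζ : ℂ) (hζ : 0 < ζ.im) :
    IntegrableOn (fun t : ℝ => (f t : ℂ) * (1 / (t : ℂ) - Complex.I * ζ / 2) ^ 2 *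
          Complex.exp (Complex.I * ζ * t)) (Set.Ioi 0) := by
  have hNpos : (0 : ℝ) < N := by exact_mod_cast hN
  have hexp : IntegrableOn (fun t : ℝ => Real.exp (-(1 / (4 * (N : ℝ))) * t)) (Set.Ioi 0) :=
    integrableOn_exp_mul_Ioi (by simpa using hNpos) 0
  have hbd : IntegrableOn (fun t : ℝ => (C0 * (N : ℝ) ^ 3 * ((N : ℝ) + ‖ζ‖) ^ 2) *
      Real.exp (-(1 / (4 * (N : ℝ))) * t)) (Set.Ioi 0) := hexp.const_mul _
  refine Integrable.mono' hbd ?_ ?_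
  · apply Measurable.aestronglyMeasurable
    fun_prop
  · rw [ae_restrict_iff' measurableSet_Ioi]
    refine Filter.Eventually.of_forall fun t ht => ?_
    have ht0 : (0 : ℝ) < t := ht
    by_cases hlt : t < 1 / (N : ℝ)
    · rw [hf0 t hlt]
      have hC : 0 ≤ C0 * (N : ℝ) ^ 3 * Real.exp (- t / (4 * N)) := (abs_nonneg _).trans (hf1 t)
      have hC' : 0 ≤ C0 * (N : ℝ) ^ 3 := nonneg_of_mul_nonneg_left hC (Real.exp_pos _)
      simp only [Complex.ofReal_zero, zero_mul, norm_zero]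
      positivity
    · push Not at hlt
      have h1 : ‖(1 / (t : ℂ) - Complex.I * ζ / 2)‖ ≤ (N : ℝ) + ‖ζ‖ := by
        calc ‖(1 / (t : ℂ) - Complex.I * ζ / 2)‖ ≤ ‖(1 / (t : ℂ))‖ + ‖Complex.I * ζ / 2‖ :=
              norm_sub_le _ _
          _ ≤ N + ‖ζ‖ := by
            have h2 : ‖(1 / (t : ℂ))‖ = 1 / t := by
              rw [norm_div, norm_one, Complex.norm_real, Real.norm_eq_abs, abs_of_pos ht0]
            have h3 : 1 / t ≤ N := by
              rw [div_le_iff₀ ht0]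
              rw [div_le_iff₀ hNpos] at hlt
              linarith
            have h4 : ‖Complex.I * ζ / 2‖ ≤ ‖ζ‖ := by
              rw [norm_div, norm_mul, Complex.norm_I, one_mul]
              have : ‖(2 : ℂ)‖ = 2 := by norm_num
              rw [this]
              linarith [norm_nonneg ζ]
            rw [h2]
            exact add_le_add h3 h4
      have h5 : ‖Complex.exp (Complex.I * ζ * t)‖ ≤ 1 := by
        rw [Complex.norm_exp]
        have : (Complex.I * ζ * (t : ℂ)).re = - (ζ.im * t) := by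
          simp [Complex.mul_re, Complex.mul_im]
        rw [this, Real.exp_le_one_iff]
        nlinarith [mul_pos hζ ht0]
      have h6 : ‖(f t : ℂ)‖ ≤ C0 * (N : ℝ) ^ 3 * Real.exp (-(1 / (4 * (N : ℝ))) * t) := by
        rw [Complex.norm_real, Real.norm_eq_abs]
        have e : -(1 / (4 * (N : ℝ))) * t = - t / (4 * N) := by ring
        rw [e]
        exact hf1 t
      rw [norm_mul, norm_mul, norm_pow]
      calc ‖(f t : ℂ)‖ * ‖(1 / (t : ℂ) - Complex.I * ζ / 2)‖ ^ 2 * ‖Complex.exp (Complex.I * ζ * t)‖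
          ≤ (C0 * (N : ℝ) ^ 3 * Real.exp (-(1 / (4 * (N : ℝ))) * t)) * ((N : ℝ) + ‖ζ‖) ^ 2 * 1 := by
            have h7 : 0 ≤ C0 * (N : ℝ) ^ 3 * Real.exp (-(1 / (4 * (N : ℝ))) * t) :=
              le_trans (norm_nonneg _) h6
            have h8 : ‖(1 / (t : ℂ) - Complex.I * ζ / 2)‖ ^ 2 ≤ ((N : ℝ) + ‖ζ‖) ^ 2 :=
              pow_le_pow_left₀ (norm_nonneg _) h1 2
            exact mul_le_mul (mul_le_mul h6 h8 (by positivity) h7) h5 (norm_nonneg _)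
              (mul_nonneg h7 (by positivity))
        _ = _ := by ring

theorem W_int (c4 : ℝ) (hrad : ∀ F : ℝ → ℂ,
    ∫ z : E3, F ‖z‖ * (((((z 0) ^ 2 + (z 1) ^ 2) / ‖z‖ ^ 2) ^ 2 : ℝ) : ℂ) =
      c4 * ∫ r in Set.Ioi (0 : ℝ), F r * ((r ^ 2 : ℝ) : ℂ))
    (C0 : ℝ) (N : ℕ) (hN : 1 ≤ N) (om : ℕ → ℝ → ℝ)
    (hom1 : ∀ n, Measurable (om n)) (hom2 : ∀ n t, t < 1 / (N : ℝ) → om n t = 0)
    (hom3 : ∀ n ≤ N, ∀ t, |om n t| ≤ C0 * (N : ℝ) ^ 3 * Real.exp (- t / (4 * N)))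
    (hom : ∀ n, ∀ ζ : ℂ, 0 < ζ.im →
      ∫ t in Set.Ioi (0 : ℝ), (om n t : ℂ) * (1 / (t : ℂ) - Complex.I * ζ / 2) ^ 2 *
          Complex.exp (Complex.I * ζ * t) =
        Complex.exp (Complex.I * ζ / N) * ((ζ - Complex.I) / (ζ + Complex.I)) ^ n *
          (ζ / (ζ + Complex.I)) ^ 5)
    (Λ : ℝ) (hΛ : 1 ≤ Λ) (h : Fin N → ℂ) (b : ℂ) (hb : ‖b‖ < 1) :
    ∫ z : E3, Wf om N Λ h z * (Dk (zt b / (2 * Λ)) ‖z‖ * (zp z / (‖z‖ : ℂ))) ^ 2 =
      ((c4 / (16 * Real.pi ^ 2) : ℝ) : ℂ) / (Λ : ℂ) ^ 4 * Complex.exp (Complex.I * zt b / N) *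
        ((1 + b) / 2) ^ 5 * ∑ n : Fin N, h n * b ^ (n : ℕ) := by
  have hΛ0 : (0 : ℝ) < Λ := lt_of_lt_of_le one_pos hΛ
  have hΛC : (Λ : ℂ) ≠ 0 := by exact_mod_cast hΛ0.ne'
  set k : ℂ := zt b / (2 * Λ) with hk
  set F : ℝ → ℂ := fun r => (1 / (Λ : ℂ) ^ 3) * (∑ n : Fin N, h n * (om n (r / Λ) : ℂ)) *
    (Dk k r) ^ 2 with hF
  have hpt : ∀ z : E3, Wf om N Λ h z * (Dk k ‖z‖ * (zp z / (‖z‖ : ℂ))) ^ 2 =
      F ‖z‖ * (((((z 0) ^ 2 + (z 1) ^ 2) / ‖z‖ ^ 2) ^ 2 : ℝ) : ℂ) := by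
    intro z
    have e1 : (((((z 0) ^ 2 + (z 1) ^ 2) / ‖z‖ ^ 2) ^ 2 : ℝ) : ℂ) =
        (zm z * zp z / (‖z‖ : ℂ) ^ 2) ^ 2 := by
      rw [zm_mul_zp]; push_cast; rfl
    rw [e1, hF]
    unfold Wf
    ring
  rw [integral_congr_ae (Filter.Eventually.of_forall hpt), hrad F]
  -- substitution
  have hsub := integral_comp_mul_left_Ioi (fun r : ℝ => F r * ((r ^ 2 : ℝ) : ℂ)) 0 hΛ0
  rw [mul_zero] at hsub
  have hsub' : ∫ r in Set.Ioi (0 : ℝ), F r * ((r ^ 2 : ℝ) : ℂ) =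
      (Λ : ℂ) * ∫ t in Set.Ioi (0 : ℝ), F (Λ * t) * (((Λ * t) ^ 2 : ℝ) : ℂ) := by
    rw [hsub, Complex.real_smul]
    push_cast
    field_simp
  have hint : ∀ t ∈ Set.Ioi (0 : ℝ), F (Λ * t) * (((Λ * t) ^ 2 : ℝ) : ℂ) =
      ∑ n : Fin N, (1 / ((Λ : ℂ) ^ 5 * (16 * Real.pi ^ 2))) * h n * ((om n t : ℂ) *
        (1 / (t : ℂ) - Complex.I * zt b / 2) ^ 2 * Complex.exp (Complex.I * zt b * t)) := by
    intro t ht
    have ht0 : (t : ℂ) ≠ 0 := by exact_mod_cast (ne_of_gt ht)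
    have hpi : (Real.pi : ℂ) ≠ 0 := by exact_mod_cast Real.pi_ne_zero
    have e1 : Λ * t / Λ = t := by field_simp
    have e2 : Complex.I * k * ((Λ * t : ℝ) : ℂ) = Complex.I * zt b * t / 2 := by
      rw [hk]; push_cast; field_simp
    have e3 : (Dk k (Λ * t)) ^ 2 = (1 / ((Λ : ℂ) * t) ^ 2 - Complex.I * k / ((Λ : ℂ) * t)) ^ 2 *
        Complex.exp (Complex.I * zt b * t) / (16 * Real.pi ^ 2) := by
      unfold Dk
      rw [e2, div_pow, mul_pow, ← Complex.exp_nat_mul]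
      have e4 : ((2 : ℕ) : ℂ) * (Complex.I * zt b * t / 2) = Complex.I * zt b * t := by
        push_cast; ring
      rw [e4]
      push_cast
      ring
    have e5 : ∀ n : Fin N, (1 / ((Λ : ℂ) ^ 5 * (16 * Real.pi ^ 2))) * h n * ((om n t : ℂ) *
        (1 / (t : ℂ) - Complex.I * zt b / 2) ^ 2 * Complex.exp (Complex.I * zt b * t)) =
        ((1 / ((Λ : ℂ) ^ 5 * (16 * Real.pi ^ 2))) * (1 / (t : ℂ) - Complex.I * zt b / 2) ^ 2 *
          Complex.exp (Complex.I * zt b * t)) * (h n * (om n t : ℂ)) := by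
      intro n; ring
    rw [Finset.sum_congr rfl (fun n _ => e5 n), ← Finset.mul_sum]
    show (1 / (Λ : ℂ) ^ 3) * (∑ n : Fin N, h n * (om n (Λ * t / Λ) : ℂ)) *
      (Dk k (Λ * t)) ^ 2 * _ = _
    rw [e1, e3, hk]
    push_cast
    field_simp
  rw [hsub', setIntegral_congr_fun measurableSet_Ioi hint]
  rw [integral_finsetSum]
  · have h1 : ∀ n : Fin N, ∫ t in Set.Ioi (0 : ℝ), (1 / ((Λ : ℂ) ^ 5 * (16 * Real.pi ^ 2))) * h n *
        ((om n t : ℂ) * (1 / (t : ℂ) - Complex.I * zt b / 2) ^ 2 *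
          Complex.exp (Complex.I * zt b * t)) =
        (1 / ((Λ : ℂ) ^ 5 * (16 * Real.pi ^ 2))) * h n * (Complex.exp (Complex.I * zt b / N) *
          b ^ (n : ℕ) * ((1 + b) / 2) ^ 5) := by
      intro n
      rw [integral_const_mul, hom n (zt b) (zt_im_pos hb), zt_b hb, zt_half hb]
    rw [Finset.sum_congr rfl (fun n _ => h1 n)]
    have hpi : (Real.pi : ℂ) ≠ 0 := by exact_mod_cast Real.pi_ne_zero
    rw [Finset.mul_sum, Finset.mul_sum, Finset.mul_sum]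
    apply Finset.sum_congr rfl
    intro n _
    push_cast
    field_simp
  · intro n _
    exact (om_integrable C0 N hN (om n) (hom1 n) (hom2 n) (hom3 n n.2.le) (zt b)
      (zt_im_pos hb)).const_mul _

end Pool.Agent.Helper93.CE
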